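import Mathlib

set_option linter.unusedSectionVars false
set_option linter.unusedVariables false
set_option linter.dupNamespace false

namespace Pool.Agent.H.MP_e34f63_pr

open Finset MeasureTheory ProbabilityTheory Measure Relation
open scoped ENNReal

variable {K : ℕ}

instance ms : MeasurableSpace (List (Fin K)) := ⊤

instance : DiscreteMeasurableSpace (List (Fin K)) := ⟨fun _ => trivial⟩

/-- The tree grown from a root of type `i`, where a vertex `u` of type `k` has offspring word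
`ω (u, k)`; `T ω i u k` says that `u` is a vertex and has type `k`. -/
def T : (List ℕ × Fin K → List (Fin K)) → Fin K → List ℕ → Fin K → Prop
  | _, i, [], k => k = i
  | ω, i, n :: v, k => ∃ j, (ω ([], i))[n]? = some j ∧ T (fun p => ω (n :: p.1, p.2)) j v k

/-- Independent offspring words. -/
noncomputable def P (ζ : Fin K → PMF (List (Fin K))) : Measure (List ℕ × Fin K → List (Fin K)) :=
  infinitePi fun p => (ζ p.2).toMeasure

/-- Law of the tree with root type `i`. -/
noncomputable def law (ζ : Fin K → PMF (List (Fin K))) (i : Fin K) : Measure (List ℕ → Fin K → Prop) :=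
  (P ζ).map (T · i)

open Classical in
/-- Number of vertices of type `k`. -/
noncomputable def N (t : List ℕ → Fin K → Prop) (k : Fin K) : ℝ≥0∞ := ∑' u, if t u k then 1 else 0

/-- The conditioning event. -/
def E (Γ : Fin K → ℕ) (g : ℕ) : Set (List ℕ → Fin K → Prop) := {t | ∑ k, Γ k * N t k = g}

/-- Equality in law of the conditioned trees. -/
def Cond (Γ : Fin K → ℕ) (ζ ξ : Fin K → PMF (List (Fin K))) : Prop :=
  ∀ i g, law ζ i (E Γ g) ≠ 0 → (law ζ i)[|E Γ g] = (law ξ i)[|E Γ g]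

instance (ζ : Fin K → PMF (List (Fin K))) : IsProbabilityMeasure (P ζ) := by unfold P; infer_instance

lemma T_m (i : Fin K) : Measurable fun ω : List ℕ × Fin K → List (Fin K) => T ω i := by
  refine measurable_pi_lambda _ fun u => measurable_pi_lambda _ fun k => ?_
  induction u generalizing i with
  | nil => exact measurable_const
  | cons n v ih =>
    exact .exists fun j => .and ((Measurable.of_discrete (f := fun x : List (Fin K) => x[n]? = some j)).comp
      (measurable_pi_apply _)) ((ih j).comp (by fun_prop))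

lemma T_congr (u : List ℕ) : ∀ (ω ω' : List ℕ × Fin K → List (Fin K)) i,
    (∀ v k, T ω' i v k → ω (v, k) = ω' (v, k)) → T ω i u = T ω' i u := by
  induction u with
  | nil => exact fun _ _ _ _ => rfl
  | cons n v ih =>
    intro ω ω' i h
    ext k
    simp only [T, h [] i rfl]
    exact exists_congr fun j => and_congr_right fun hj => by
      rw [ih _ (fun p => ω' (n :: p.1, p.2)) j fun v k k' => h (n :: v) k ⟨j, hj, k'⟩]

lemma T_uniq (u : List ℕ) : ∀ (ω : List ℕ × Fin K → List (Fin K)) i k k', T ω i u k → T ω i u k' → k = k' := by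
  induction u with
  | nil => exact fun _ _ _ _ h h' => h.trans h'.symm
  | cons n v ih =>
    rintro ω i k k' ⟨j, h1, h2⟩ ⟨j', h3, h4⟩
    obtain rfl := Option.some.inj (h1.symm.trans h3)
    exact ih _ _ _ _ h2 h4

lemma T_kid (u : List ℕ) (n : ℕ) (j : Fin K) : ∀ (ω : List ℕ × Fin K → List (Fin K)) i k, T ω i u k →
    (T ω i (u ++ [n]) j ↔ (ω (u, k))[n]? = some j) := by
  induction u with
  | nil => rintro ω i k rfl; simp [T, eq_comm]
  | cons m v ih =>
    rintro ω i k ⟨a, h1, h2⟩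
    simp [T, h1, ih _ _ _ h2]

lemma N_eq (ω : List ℕ × Fin K → List (Fin K)) (i k : Fin K) : N (T ω i) k = (if k = i then 1 else 0) +
    ∑ n : Fin (ω ([], i)).length, N (T (fun p => ω (n :: p.1, p.2)) ((ω ([], i)).get n)) k := by
  classical
  rw [N, ENNReal.tsum_eq_add_tsum_ite [], ← Function.Injective.tsum_eq (g := fun p : ℕ × List ℕ => p.1 :: p.2)
    (fun p q h => Prod.ext (List.cons.inj h).1 (List.cons.inj h).2) (by rintro (_ | ⟨n, v⟩) h <;> simp at h ⊢),
    ENNReal.tsum_prod', tsum_eq_sum (s := range (ω ([], i)).length) fun n hn => by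
      simp [T, List.getElem?_eq_none (not_lt.1 (mt mem_range.2 hn))], sum_range]
  simp [T, N]
  congr! 5

lemma ae_supp (ζ : Fin K → PMF (List (Fin K))) : ∀ᵐ ω ∂P ζ, ∀ p, ζ p.2 (ω p) ≠ 0 :=
  ae_all_iff.2 fun p => (measurePreserving_eval_infinitePi (fun p : List ℕ × Fin K => (ζ p.2).toMeasure)
    p).quasiMeasurePreserving.ae (p := fun x => ζ p.2 x ≠ 0) (by
      rw [ae_iff, PMF.toMeasure_apply_eq_zero_iff _ .of_discrete]
      exact Set.disjoint_left.2 fun x h k => k h)

lemma pos_iff (ζ : Fin K → PMF (List (Fin K))) {ω : List ℕ × Fin K → List (Fin K)} {i : Fin K}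
    (hf : {p : List ℕ × Fin K | T ω i p.1 p.2}.Finite) :
    law ζ i {T ω i} ≠ 0 ↔ ∀ u k, T ω i u k → ζ k (ω (u, k)) ≠ 0 := by
  rw [law, map_apply (T_m i) (measurableSet_singleton _)]
  refine ⟨fun h u k hk => ?_, fun h => (lt_of_lt_of_le (pos_iff_ne_zero.2 ?_) ((infinitePi_pi
    (fun p : List ℕ × Fin K => (ζ p.2).toMeasure) (s := hf.toFinset) (t := fun p => {ω p})
    fun _ _ => .of_discrete).ge.trans (measure_mono fun ω' k => funext fun u => T_congr u _ _ _
      fun v j h => k (v, j) (by simpa using h)))).ne'⟩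
  · obtain ⟨ω', h1, h2⟩ := (frequently_ae_iff.2 h).and_eventually (ae_supp ζ) |>.exists
    have e : T ω' i = T ω i := h1
    rw [← show ω' (u, k) = ω (u, k) from List.ext_getElem? fun n => Option.ext fun j => by
      rw [← T_kid u n j _ _ _ hk, ← T_kid u n j ω' i k (e ▸ hk), e]]
    exact h2 (u, k)
  · exact prod_ne_zero_iff.2 fun p hp => by
      rw [PMF.toMeasure_apply_singleton _ _ .of_discrete]; exact h _ _ (by simpa using hp)

variable (Γ : Fin K → ℕ) (ζ ξ : Fin K → PMF (List (Fin K)))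

def Q (i : Fin K) (w : ℕ) (p : Prop) : Prop := ∃ ω, {p : List ℕ × Fin K | T ω i p.1 p.2}.Finite ∧
  T ω i ∈ E Γ w ∧ (∀ u k, T ω i u k → ξ k (ω (u, k)) ≠ 0) ∧ ((∀ u k, T ω i u k → ζ k (ω (u, k)) ≠ 0) ↔ p)

variable {Γ ζ ξ}

lemma graft {i : Fin K} {x : List (Fin K)} (hx : ξ i x ≠ 0) {c : Fin x.length → ℕ} {p : Fin x.length → Prop}
    (h : ∀ n, Q Γ ζ ξ (x.get n) (c n) (p n)) : Q Γ ζ ξ i (Γ i + ∑ n, c n) (ζ i x ≠ 0 ∧ ∀ n, p n) := by
  choose o o1 o2 o3 o4 using h
  obtain ⟨ω, e0, e⟩ : ∃ ω : List ℕ × Fin K → List (Fin K), ω ([], i) = x ∧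
      ∀ n : Fin x.length, (fun p : List ℕ × Fin K => ω (n :: p.1, p.2)) = o n :=
    ⟨fun q => match q.1 with
      | [] => x
      | n :: v => if h : n < x.length then o ⟨n, h⟩ (v, q.2) else [], rfl, fun n => by simp⟩
  subst e0
  have k : ∀ S : Fin K → List (Fin K) → Prop, (∀ u k, T ω i u k → S k (ω (u, k))) ↔ S i (ω ([], i)) ∧
      ∀ n u k, T (o n) ((ω ([], i)).get n) u k → S k (o n (u, k)) := fun S =>
    ⟨fun h => ⟨h [] i rfl, fun n u k hk => by rw [← e] at hk ⊢; exact h (n :: u) k ⟨_, by simp, hk⟩⟩,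
      fun h u k hk => by
        rcases u with _ | ⟨n, v⟩
        · cases hk; exact h.1
        obtain ⟨j, h1, h2⟩ := hk
        obtain ⟨hn, rfl⟩ := List.getElem?_eq_some_iff.1 h1
        have := h.2 ⟨n, hn⟩ v k
        rw [← e] at this
        exact this h2⟩
  refine ⟨ω, ((Set.finite_iUnion fun n => (o1 n).image fun q => ((n : ℕ) :: q.1, q.2)).insert
    ([], i)).subset ?_, ?_, (k fun k x => ξ k x ≠ 0).2 ⟨hx, o3⟩,
    (k fun k x => ζ k x ≠ 0).trans (and_congr_right fun _ => forall_congr' o4)⟩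
  · rintro ⟨_ | ⟨n, v⟩, k⟩ h
    · cases h; exact .inl rfl
    obtain ⟨j, h1, h2⟩ := h
    obtain ⟨hn, rfl⟩ := List.getElem?_eq_some_iff.1 h1
    exact .inr (Set.mem_iUnion.2 ⟨⟨n, hn⟩, (v, k), by rw [← e]; exact h2, rfl⟩)
  · simp only [E, Set.mem_ofPred_eq, N_eq ω, e, mul_add, sum_add_distrib, mul_sum] at o2 ⊢
    rw [Finset.sum_comm]
    simp [-List.get_eq_getElem, o2]

lemma key (h : Cond Γ ζ ξ) {η : Fin K → PMF (List (Fin K))} {i : Fin K} {w : ℕ} (h1 : Q Γ ζ η i w True)
    {ω : List ℕ × Fin K → List (Fin K)} (hf : {p : List ℕ × Fin K | T ω i p.1 p.2}.Finite)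
    (hw : T ω i ∈ E Γ w) :
    (∀ u k, T ω i u k → ζ k (ω (u, k)) ≠ 0) ↔ ∀ u k, T ω i u k → ξ k (ω (u, k)) ≠ 0 := by
  obtain ⟨o, o1, o2, -, o4⟩ := h1
  have : ∀ ζ i, IsProbabilityMeasure (law (K := K) ζ i) := fun ζ i =>
    isProbabilityMeasure_map (T_m i).aemeasurable
  have p : law ζ i (E Γ w) ≠ 0 := fun n => (pos_iff ζ o1).2 (o4.2 trivial)
    (measure_mono_null (Set.singleton_subset_iff.2 o2) n)
  have := congrArg (· {T ω i}) (h i w p)
  simp only [cond_apply' (measurableSet_singleton _), Set.inter_eq_self_of_subset_right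
    (Set.singleton_subset_iff.2 hw)] at this
  rw [← pos_iff ζ hf, ← pos_iff ξ hf]
  refine not_congr ⟨fun k => ?_, fun k => ?_⟩
  · rw [k, mul_zero, eq_comm, mul_eq_zero] at this
    exact this.resolve_left (ENNReal.inv_ne_zero.2 (measure_ne_top _ _))
  · rw [k, mul_zero, mul_eq_zero] at this
    exact this.resolve_left (ENNReal.inv_ne_zero.2 (measure_ne_top _ _))

theorem main (h : Cond Γ ζ ξ) (hF : ∀ i, P ζ {ω | {p : List ℕ × Fin K | T ω i p.1 p.2}.Finite} ≠ 0)
    (hI : ∀ i j, ReflTransGen (fun a b => ∃ x, ζ a x ≠ 0 ∧ b ∈ x) i j)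
    (hN : ∃ i x, ζ i x ≠ 0 ∧ 2 ≤ x.length) (i : Fin K) (x : List (Fin K)) : ζ i x = 0 ↔ ξ i x = 0 := by
  classical
  have F : ∀ j, ∃ w, Q Γ ζ ζ j w True := fun j => by
    obtain ⟨ω, h1, h2⟩ := ((frequently_ae_iff.2 (hF j)).and_eventually (ae_supp ζ)).exists
    have : ∀ k, ∃ n : ℕ, N (T ω j) k = n := fun k => ⟨_, by
      rw [N, tsum_eq_sum (s := h1.toFinset.image Prod.fst) fun u hu => if_neg fun n =>
        hu (mem_image.2 ⟨(u, k), by simpa using n, rfl⟩), sum_boole]⟩
    choose n hn using this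
    exact ⟨∑ k, Γ k * n k, ω, h1, by simp [E, hn], fun u k _ => h2 (u, k), iff_true_intro fun u k _ => h2 (u, k)⟩
  choose c hc using F
  have AB : ∀ i x, ζ i x ≠ 0 → ξ i x ≠ 0 := fun i x hx => by
    have : ∀ j, ∃ p, Q Γ ξ ζ j (c j) p := fun j => by
      obtain ⟨ω, a1, a2, a3, -⟩ := hc j
      exact ⟨_, ω, a1, a2, a3, Iff.rfl⟩
    choose p hp using this
    obtain ⟨ω, a1, a2, a3, a4⟩ := graft hx fun n => hp (x.get n)
    exact (a4.1 ((key h (η := ζ) ⟨ω, a1, a2, a3, iff_true_intro a3⟩ a1 a2).1 a3)).1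
  have hc' : ∀ j, Q Γ ζ ξ j (c j) True := fun j => by
    obtain ⟨ω, a1, a2, a3, a4⟩ := hc j
    exact ⟨ω, a1, a2, fun u k h => AB _ _ (a3 u k h), a4⟩
  refine not_iff_not.1 ⟨AB i x, fun hx hn => ?_⟩
  have ctx : ∀ a b, ∃ r, ∀ w p, Q Γ ζ ξ b w p → Q Γ ζ ξ a (r + w) p := fun a b => by
    induction hI a b with
    | refl => exact ⟨0, by simp⟩
    | @tail m b _ k ih =>
      obtain ⟨r, hr⟩ := ih
      obtain ⟨y, y1, y2⟩ := k
      obtain ⟨n, rfl⟩ := List.get_of_mem y2
      refine ⟨r + (Γ m + ∑ l ∈ univ \ {n}, c (y.get l)), fun w p hw => ?_⟩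
      have := hr _ _ (graft (AB _ _ y1) (c := Function.update (fun l => c (y.get l)) n w)
        (p := fun l => l = n → p) fun l => by
          by_cases e : l = n
          · subst e; simpa using hw
          · simpa [e] using hc' _)
      rw [sum_update_of_mem (mem_univ n)] at this
      convert this using 1
      · ring
      · simp [y1]
  obtain ⟨r, two⟩ : ∃ r, ∀ a b p q, Q Γ ζ ξ i a p → Q Γ ζ ξ i b q → Q Γ ζ ξ i (r + a + b) (p ∧ q) := by
    obtain ⟨m, y, y1, y2⟩ := hN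
    obtain ⟨r, hr⟩ := ctx i m
    obtain ⟨u, v, y, rfl⟩ : ∃ u v z, y = u :: v :: z := by
      rcases y with _ | ⟨u, _ | ⟨v, z⟩⟩ <;> simp at y2 ⊢
    obtain ⟨s, hs⟩ := ctx u i
    obtain ⟨t, ht⟩ := ctx v i
    refine ⟨r + Γ m + s + t + ∑ l : Fin y.length, c (y.get l), fun a b p q ha hb => ?_⟩
    have := hr _ _ (graft (AB _ _ y1) (c := Fin.cons (s + a) (Fin.cons (t + b) fun l => c (y.get l)))
      (p := Fin.cons p (Fin.cons q fun _ => True)) fun l => by
        refine Fin.cases (hs _ _ ha) (fun l => Fin.cases (ht _ _ hb) (fun l => hc' _) l) l)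
    convert this using 1
    · simp [Fin.sum_univ_succ]; ring
    · simp [y1, Fin.forall_fin_succ]
  have no : ∀ w, Q Γ ζ ξ i w True → ¬ Q Γ ζ ξ i w False := fun w h1 ⟨ω, a1, a2, a3, a4⟩ =>
    a4.1 ((key h h1 a1 a2).2 a3)
  have bad : Q Γ ζ ξ i (Γ i + ∑ n, c (x.get n)) False := by
    simpa [hn] using graft hx fun n => hc' (x.get n)
  by_cases k : ∃ a, 0 < a ∧ Q Γ ζ ξ i a True
  · obtain ⟨a, a0, ha⟩ := k
    generalize Γ i + ∑ n, c (x.get n) = b at bad
    have g : ∀ m, Q Γ ζ ξ i (a + m * (r + a)) True := fun m => by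
      induction m with
      | zero => simpa using ha
      | succ m ih => convert two _ _ _ _ ha ih using 1 <;> [ring; simp]
    have f : ∀ m, Q Γ ζ ξ i (b + m * (r + b)) False := fun m => by
      induction m with
      | zero => simpa using bad
      | succ m ih => convert two _ _ _ _ bad ih using 1 <;> [ring; simp]
    obtain ⟨d, hd⟩ : ∃ d, r + a = d + 1 := ⟨r + a - 1, by omega⟩
    refine no _ (g (r + b)) ?_
    convert two _ _ _ _ ha (f d) using 1
    · nth_rewrite 1 [hd]; ring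
    · simp
  · have z : ∀ a, Q Γ ζ ξ i a True → a = 0 := fun a ha => by_contra fun n => k ⟨a, Nat.pos_of_ne_zero n, ha⟩
    obtain ⟨y, hy⟩ := (ζ i).support_nonempty
    have := z (Γ i + ∑ n, c (y.get n)) (by
      simpa [show ζ i y ≠ 0 from hy] using graft (AB _ _ hy) fun n => hc' (y.get n))
    refine no _ (hc' i) ?_
    rwa [z _ (hc' i), ← show Γ i + ∑ n, c (x.get n) = 0 by
      rw [Finset.sum_eq_zero fun n _ => by
        obtain ⟨s, hs⟩ := ctx i (x.get n)
        have := z _ (hs _ _ (hc' _)); omega]; omega]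

lemma dirac_of {η : Fin 1 → PMF (List (Fin 1))} (h : η 0 [] ≠ 0) :
    (law η 0)[|E 1 1] = dirac (T (fun _ => []) 0) ∧ T (fun _ => []) (0 : Fin 1) ∈ E 1 1 := by
  have N1 : ∀ ω : List ℕ × Fin 1 → List (Fin 1), T ω 0 ∈ E 1 1 ↔ ω ([], 0) = [] := fun ω => by
    simp only [E, Set.mem_ofPred_eq, Fin.sum_univ_one, Pi.one_apply, Nat.cast_one, one_mul, N_eq ω, if_true]
    rw [← add_zero (1 : ℝ≥0∞), add_assoc, ENNReal.add_right_inj ENNReal.one_ne_top, zero_add,
      Finset.sum_eq_zero_iff]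
    refine ⟨fun k => List.length_eq_zero_iff.1 (by_contra fun n => ?_), fun k n => absurd n.2 (by simp [k])⟩
    have := k ⟨0, Nat.pos_of_ne_zero n⟩ (mem_univ _)
    rw [N_eq, if_pos (Subsingleton.elim _ _)] at this
    simp at this
  have e : ∀ ω : List ℕ × Fin 1 → List (Fin 1), ω ([], 0) = [] → T ω 0 = T (fun _ => []) 0 := fun ω k =>
    funext fun u => T_congr u _ _ _ fun v j h => by
      rcases v with _ | ⟨n, v⟩
      · cases h; exact k
      · simp [T] at h
  have mE : MeasurableSet (E (K := 1) 1 1) := by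
    refine measurableSet_eq_fun (Finset.measurable_sum _ fun k _ => .const_mul ?_ _) measurable_const
    exact .tsum fun u => .ite (measurableSet_setOfPred.2 (by fun_prop)) measurable_const measurable_const
  have : IsProbabilityMeasure (law η 0) := isProbabilityMeasure_map (T_m 0).aemeasurable
  have p : law η 0 (E 1 1) ≠ 0 := fun n => (pos_iff η (ω := fun _ => []) (i := 0)
    ((Set.finite_singleton ([], 0)).subset (by rintro ⟨_ | ⟨n, v⟩, k⟩ h <;> simp_all [T]))).2
    (fun u k _ => Subsingleton.elim 0 k ▸ h) (measure_mono_null (Set.singleton_subset_iff.2 ((N1 _).2 rfl)) n)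
  refine ⟨Measure.ext fun s hs => ?_, (N1 _).2 rfl⟩
  rw [cond_apply mE, dirac_apply' _ hs]
  by_cases k : T (fun _ => []) (0 : Fin 1) ∈ s
  · rw [Set.indicator_of_mem k, show law η 0 (E 1 1 ∩ s) = law η 0 (E 1 1) by
      rw [law, map_apply (T_m 0) (mE.inter hs), map_apply (T_m 0) mE]
      exact congrArg _ (Set.ext fun ω => and_iff_left_of_imp fun a => show T ω 0 ∈ s from (e ω ((N1 ω).1 a)).symm ▸ k)]
    exact ENNReal.inv_mul_cancel p (measure_ne_top _ _)
  · rw [Set.indicator_of_notMem k, law, map_apply (T_m 0) (mE.inter hs),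
      show (T · 0) ⁻¹' (E 1 1 ∩ s) = ∅ from Set.eq_empty_of_forall_notMem fun ω a =>
        k (e ω ((N1 ω).1 a.1) ▸ a.2)]
    simp

theorem cex : ∃ ζ ξ : Fin 1 → PMF (List (Fin 1)), Cond 1 ζ ξ ∧ ζ 0 [0] = 0 ∧ ξ 0 [0] ≠ 0 := by
  have s : ∀ b : Bool, ((PMF.uniformOfFintype Bool).map fun b => if b then [] else [(0 : Fin 1)])
      (if b then [] else [0]) ≠ 0 := fun b => (PMF.mem_support_map_iff _ _ _).2 ⟨b, by simp, rfl⟩
  refine ⟨fun _ => .pure [], fun _ => (PMF.uniformOfFintype Bool).map fun b => if b then [] else [0],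
    fun i g h => ?_, by simp, s false⟩
  obtain rfl : i = 0 := Subsingleton.elim _ _
  have d := dirac_of (η := fun _ => .pure []) (by simp)
  obtain rfl : g = 1 := by
    by_contra n
    refine h (measure_mono_null (t := {T (fun _ => []) 0}ᶜ) (fun t ht e => n ?_) ?_)
    · rw [e] at ht
      exact_mod_cast (show _ = (g : ℝ≥0∞) from ht).symm.trans d.2
    · rw [law, map_apply (T_m 0) (measurableSet_singleton _).compl]
      exact (ae_supp fun _ => PMF.pure []).mono fun ω k => congrArg (T · 0) (funext fun p => by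
        simpa using k p)
  rw [d.1, (dirac_of (s true)).1]

end Pool.Agent.H.MP_e34f63_pr
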